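import Pool.Agent.X238.Ang.Main

set_option autoImplicit false

/-!
# MP_843c3c_an: the classes of normed spaces with the angle `∠_ρ`

For all real numbers `1 < γ < δ` and `1 < α < β` the five classes
`NORM_{-δ}`, `NORM_{-γ}`, `NORM`, `NORM_α`, `NORM_β` are pairwise different, and the inclusions
`NORM_{-δ} ⊂ NORM_{-γ}` and `NORM_β ⊂ NORM_α` are strict.

Definitions (file `Pool/Agent/X238/Ang/Defs.lean`): `prd ρ x y` is the product `⟨x | y⟩_ρ`,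
`HasAngle ρ X` says `|⟨x | y⟩_ρ| ≤ ‖x‖ ‖y‖` for all nonzero `x`, `y`; `NSp` is the type of all real
normed spaces (bundled), `NORM` the class of all of them and `NORMr ρ` the class of those that have
the angle `∠_ρ`.
-/

namespace Pool.Agent.Results.MP_843c3c_an.FiveClassesDifferent

open Pool.Agent.X238.Ang

theorem exists_c {x : ℝ} (hx : 1 < x) : ∃ c : ℝ, 0 < c ∧ c < 1 ∧ c ^ 2 = (x - 1) / (x + 1) := by
  have h0 : 0 < (x - 1) / (x + 1) := div_pos (by linarith) (by linarith)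
  refine ⟨Real.sqrt ((x - 1) / (x + 1)), Real.sqrt_pos.2 h0, ?_, Real.sq_sqrt h0.le⟩
  rw [Real.sqrt_lt' (by norm_num), one_pow, div_lt_one (by linarith)]
  linarith

theorem kappa_lt {x y : ℝ} (hx : 1 < x) (h : x < y) : (x - 1) / (x + 1) < (y - 1) / (y + 1) := by
  rw [div_lt_div_iff₀ (by linarith) (by linarith)]
  nlinarith

theorem result (α β γ δ : ℝ) (hγ : 1 < γ) (hγδ : γ < δ) (hα : 1 < α) (hαβ : α < β) :
    List.Pairwise (· ≠ ·) [NORMr (-δ), NORMr (-γ), NORM, NORMr α, NORMr β] ∧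
    NORMr (-δ) ⊂ NORMr (-γ) ∧ NORMr β ⊂ NORMr α := by
  have hδ : 1 < δ := hγ.trans hγδ
  have hβ : 1 < β := hα.trans hαβ
  obtain ⟨cγ, hcγ0, hcγ1, hcγ⟩ := exists_c hγ
  obtain ⟨cα, hcα0, hcα1, hcα⟩ := exists_c hα
  obtain ⟨cβ, hcβ0, hcβ1, hcβ⟩ := exists_c hβ
  -- the spaces
  have a1 : (⟨Yd cγ⟩ : NSp) ∈ NORMr (-γ) := hasAngle_Yd hγ hcγ0 hcγ
  have a2 : (⟨Yd cγ⟩ : NSp) ∉ NORMr (-δ) := not_hasAngle_Yd hδ hcγ0 (hcγ ▸ kappa_lt hγ hγδ)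
  have a3 : (⟨Y cα⟩ : NSp) ∈ NORMr α := hasAngle_Y hα hcα0.le hcα
  have a4 : (⟨Y cα⟩ : NSp) ∉ NORMr β := not_hasAngle_Y hβ hcα0.le (hcα ▸ kappa_lt hα hαβ)
  have a5 : (⟨Y cβ⟩ : NSp) ∈ NORMr β := hasAngle_Y hβ hcβ0.le hcβ
  have a6 : (⟨Y cα⟩ : NSp) ∉ NORMr (-γ) := not_hasAngle_neg_Y hγ hcα0.le hcα1
  have a7 : (⟨Y cα⟩ : NSp) ∉ NORMr (-δ) := not_hasAngle_neg_Y hδ hcα0.le hcα1
  have a8 : (⟨Y cβ⟩ : NSp) ∉ NORMr (-γ) := not_hasAngle_neg_Y hγ hcβ0.le hcβ1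
  have a9 : (⟨Y cβ⟩ : NSp) ∉ NORMr (-δ) := not_hasAngle_neg_Y hδ hcβ0.le hcβ1
  have a10 : (⟨Y 0⟩ : NSp) ∉ NORMr α := not_hasAngle_Y hα le_rfl (by
    rw [zero_pow (by norm_num)]
    exact div_pos (by linarith) (by linarith))
  have hne : ∀ {S T : Set NSp} (x : NSp), x ∈ S → x ∉ T → T ≠ S := by
    rintro S T x h1 h2 rfl
    exact h2 h1
  have s1 : NORMr (-δ) ⊆ NORMr (-γ) := fun X hX => mono_neg hγδ.le (by linarith) hX
  have s2 : NORMr β ⊆ NORMr α := fun X hX => mono_pos hαβ.le (by linarith) hX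
  refine ⟨?_, ⟨s1, fun h => a2 (h a1)⟩, ⟨s2, fun h => a4 (h a3)⟩⟩
  simp only [List.pairwise_cons, List.mem_cons, List.not_mem_nil, or_false, forall_eq_or_imp,
    forall_eq, IsEmpty.forall_iff, implies_true, List.Pairwise.nil, and_true]
  refine ⟨⟨hne _ a1 a2, hne _ (Set.mem_univ _) a2, hne _ a3 a7, hne _ a5 a9⟩,
    ⟨hne _ (Set.mem_univ _) a6, hne _ a3 a6, hne _ a5 a8⟩,
    ⟨(hne _ (Set.mem_univ _) a10).symm, (hne _ (Set.mem_univ _) a4).symm⟩, (hne _ a3 a4).symm⟩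

end Pool.Agent.Results.MP_843c3c_an.FiveClassesDifferent
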